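import Pool.Agent.X312.FC.Defs
import Pool.Agent.X312.FC.RankDefs

/-!
# Coniveau: definitions
-/

open CategoryTheory AlgebraicGeometry

universe u v

namespace Pool.Agent.X312.CV

open Pool.Agent.H914 Pool.Agent.H914.VarClass Pool.Agent.X312.FC
open Pool.Agent.X312.FM (Family Has)

variable {k : Type u} [Field k] {𝒱 : VarClass k} {ops : CycleOps 𝒱}
  {W : WeilCohomology.{u, v} ops}

/-- Data of supports. In the intended use `T(Z)` is the direct sum of the groups `H ^ (2 j + w)(Z, j)`
for all integers `j`, with `w` fixed. -/
structure SupportData (T : CorrData W) where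
  /-- the elements of degree `j` which are supported in a closed subset of codimension at
  least `c` -/
  N : ∀ Z : 𝒱.Obj, ℤ → ℤ → Submodule W.K (T.M Z)
  /-- the cohomological correspondences of degree `r` -/
  degree : ∀ Z Z' : 𝒱.Obj, ℤ → Set (W.H (Z.prod Z'))

/-- The correspondences in `C` are sums of homogeneous ones, and a correspondence of degree `r` in `C`
maps the elements of degree `j` with support in codimension `c` to elements of degree `j + r` with
support in codimension `c + r`. -/
structure SupportData.IsCompatible {T : CorrData W} (S : SupportData T) (C : Family W) : Prop where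
  decomp : ∀ (Z Z' : 𝒱.Obj) (a : W.H (Z.prod Z')), Has C a →
    a ∈ Submodule.span W.K {b | Has C b ∧ ∃ r : ℤ, b ∈ S.degree Z Z' r}
  shift : ∀ (Z Z' : 𝒱.Obj) (r : ℤ) (a : W.H (Z.prod Z')), Has C a → a ∈ S.degree Z Z' r →
    ∀ (j c : ℤ) (x : T.M Z), x ∈ S.N Z j c → T.act a x ∈ S.N Z' (j + r) (c + r)

/-- The sum of the spaces of the elements of degree `j` with support in codimension `j + w`, for all
integers `j`. -/
def SupportData.supported {T : CorrData W} (S : SupportData T) (w : ℤ) (Z : 𝒱.Obj) :
    Submodule W.K (T.M Z) :=
  ⨆ j : ℤ, S.N Z j (j + w)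

end Pool.Agent.X312.CV
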