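import Pool.Agent.X312.CV.Defs
import Pool.Agent.X312.FC.PrimLaw

/-!
# Coniveau: the gap law
-/

open CategoryTheory AlgebraicGeometry

universe u v

namespace Pool.Agent.X312.CV

open Module
open Pool.Agent.H914 Pool.Agent.H914.VarClass Pool.Agent.H914.VarClass.Obj
  Pool.Agent.H914.WeilCohomology Pool.Agent.Y133.Half Pool.Agent.X312.FC
open Pool.Agent.X312.FM (Family Has IsRingFamily IsNondeg dimOn)
open Pool.Agent.X312.FK (composite IrreducibleIn)

variable {k : Type u} [Field k] {𝒱 : VarClass k} {ops : CycleOps 𝒱}
  {W : WeilCohomology.{u, v} ops} {C : Family W} {T : CorrData W}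

/-- For a fixed element `x` the correspondences which map it to a subspace form a subspace. -/
def good (hT : T.IsFunctor C) {Z Z' : 𝒱.Obj} (x : T.M Z) (N : Submodule W.K (T.M Z')) :
    Submodule W.K (W.H (Z.prod Z')) where
  carrier := {a | T.act a x ∈ N}
  add_mem' {a b} ha hb := by
    change T.act (a + b) x ∈ N
    rw [hT.add_act]; exact N.add_mem ha hb
  zero_mem' := by
    change T.act 0 x ∈ N
    have h : T.act (0 : W.H (Z.prod Z')) x = 0 := by
      have h1 := hT.smul_act (0 : W.K) (0 : W.H (Z.prod Z')) x
      rwa [zero_smul, zero_smul] at h1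
    rw [h]; exact N.zero_mem
  smul_mem' t a ha := by
    change T.act (t • a) x ∈ N
    rw [hT.smul_act]; exact N.smul_mem _ ha

lemma supported_stable (hT : T.IsFunctor C) {S : SupportData T} (hS : S.IsCompatible C) (w : ℤ) :
    StableC C T (S.supported w) := by
  intro Z Z' a ha x hx
  change T.act a x ∈ S.supported w Z'
  have h0 : S.supported w Z ≤ (S.supported w Z').comap (actL hT a) := by
    refine iSup_le fun j y hy => ?_
    change T.act a y ∈ S.supported w Z'
    have h1 : Submodule.span W.K {b | Has C b ∧ ∃ r : ℤ, b ∈ S.degree Z Z' r} ≤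
        good hT y (S.supported w Z') := by
      refine Submodule.span_le.2 ?_
      rintro b ⟨hb, r, hr⟩
      change T.act b y ∈ S.supported w Z'
      have h2 := hS.shift Z Z' r b hb hr j (j + w) y hy
      have h3 : j + w + r = (j + r) + w := by ring
      rw [h3] at h2
      exact Submodule.mem_iSup_of_mem (p := fun i : ℤ => S.N Z' i (i + w)) (j + r) h2
    exact h1 (hS.decomp Z Z' a ha)
  exact h0 hx

/-- **The gap law for coniveau.** -/
theorem coniveau_law (hC : IsRingFamily C) (hT : T.IsFunctor C) (S : SupportData T)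
    (hS : S.IsCompatible C) (w : ℤ) (X : 𝒱.Obj) (hX : ∀ n, IsNondeg C (pw X n)) {m : ℕ}
    {e : W.H ((pw X m).prod (pw X m))} (he : Has C e) (hee : composite W e e = e)
    (hirr : IrreducibleIn (Has C) e) :
    (∀ x : T.M (pw X m), T.act e x ∈ S.supported w (pw X m)) ∨
    ∀ n : ℕ, FK.IndepMod (Set.univ : Set (T.M (pw X n))) (S.supported w (pw X n))
      (rankBound (corrRank e) (finrank W.K (W.H X)) (dimOn C (pw X n)) m n) := by
  rcases irr_fun_law hC hT (supported_stable hT hS w) (N := fun _ => ⊤) top_stable X hX he hee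
    hirr with h | h
  · exact Or.inl fun x => h x Submodule.mem_top
  · right
    intro n
    exact h n

end Pool.Agent.X312.CV
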